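import Pool.Agent.H73.FSS.Stmt
import Pool.Agent.H73.Fro.Defs

/-!
# Comparison of the two (definitionally equal) definitions of the Froelicher spectral sequence
-/

namespace Pool.Agent.H73.FSS

open Set
open scoped Manifold ContDiff ComplexConjugate Topology

theorem FComplex.mem_B_iff (C : FComplex) (r p q : ℤ) (a : C.A) :
    a ∈ C.B r p q ↔ ∃ x ∈ C.Z (r - 1) (p + 1) (q - 1), ∃ z ∈ C.Z (r - 1) (p - r + 1) (q + r - 2),
      x + C.D z = a := by
  constructor
  · intro h
    obtain ⟨x, hx, y, ⟨z, hz, rfl⟩, h2⟩ := Submodule.mem_sup.mp h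
    exact ⟨x, hx, z, hz, h2⟩
  · rintro ⟨x, hx, z, hz, h2⟩
    exact Submodule.mem_sup.mpr ⟨x, hx, _, ⟨z, hz, rfl⟩, h2⟩

theorem mem_B_iff_old (C : Fro.FComplex) (r p q : ℤ) (a : C.A) :
    a ∈ C.B r p q ↔ ∃ x ∈ C.Z (r - 1) (p + 1) (q - 1), ∃ z ∈ C.Z (r - 1) (p - r + 1) (q + r - 2),
      x + C.D z = a := by
  constructor
  · intro h
    obtain ⟨x, hx, y, ⟨z, hz, rfl⟩, h2⟩ := Submodule.mem_sup.mp h
    exact ⟨x, hx, z, hz, h2⟩
  · rintro ⟨x, hx, z, hz, h2⟩
    exact Submodule.mem_sup.mpr ⟨x, hx, _, ⟨z, hz, rfl⟩, h2⟩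

variable (n : ℕ) (X : Type*) [TopologicalSpace X] [ChartedSpace (Cn n) X]

theorem formSpace_eq (k : ℕ) : formSpace n X k = Fro.Form n X k := rfl

theorem Form_eq (k : ℕ) : Form n X k = Fro.Form n X k := rfl

theorem AllForms_eq : AllForms n X = Fro.AllForms n X := rfl

theorem Apq_eq (p q k : ℕ) : Apq n X p q k = Fro.Apq n X p q k := rfl

theorem Fil_eq (p : ℤ) (k : ℕ) : Fil n X p k = Fro.Fil n X p k := rfl

theorem filtration_eq (p m : ℤ) : filtration n X p m = Fro.filtration n X p m := rfl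

theorem totalD_eq [CMfd n X] (a : AllForms n X) : totalD n X a = Fro.totalD n X a := by
  funext k
  cases k with
  | zero => rfl
  | succ k => rfl

theorem mem_filtration_iff (p m : ℤ) (a : AllForms n X) :
    a ∈ filtration n X p m ↔ (show Fro.AllForms n X from a) ∈ Fro.filtration n X p m := Iff.rfl

/-- membership in `Z` spelled out -/
theorem Z_def [CMfd n X] (r p q : ℤ) (a : AllForms n X) :
    a ∈ (frolicher n X).Z r p q ↔
      a ∈ filtration n X p (p + q) ∧ totalD n X a ∈ filtration n X (p + r) (p + q + 1) :=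
  Iff.rfl

theorem Z_def_old [CMfd n X] (r p q : ℤ) (a : Fro.AllForms n X) :
    a ∈ (Fro.frolicher n X).Z r p q ↔
      a ∈ Fro.filtration n X p (p + q) ∧
        Fro.totalD n X a ∈ Fro.filtration n X (p + r) (p + q + 1) :=
  Iff.rfl

theorem Z_iff [CMfd n X] (r p q : ℤ) (a : AllForms n X) :
    a ∈ (frolicher n X).Z r p q ↔ (show Fro.AllForms n X from a) ∈ (Fro.frolicher n X).Z r p q := by
  rw [Z_def, Z_def_old, totalD_eq]
  exact Iff.rfl

theorem B_iff [CMfd n X] (r p q : ℤ) (a : AllForms n X) :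
    a ∈ (frolicher n X).B r p q ↔ (show Fro.AllForms n X from a) ∈ (Fro.frolicher n X).B r p q := by
  constructor
  · intro h
    obtain ⟨x, hx, z, hz, h2⟩ := (FComplex.mem_B_iff (frolicher n X) r p q a).mp h
    refine (mem_B_iff_old (Fro.frolicher n X) r p q _).mpr ⟨x, (Z_iff n X _ _ _ x).mp hx,
      z, (Z_iff n X _ _ _ z).mp hz, ?_⟩
    have h3 : (show Fro.AllForms n X from x) + Fro.totalD n X z = a := by
      rw [← totalD_eq n X z]
      exact h2
    exact h3
  · intro h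
    obtain ⟨x, hx, z, hz, h2⟩ := (mem_B_iff_old (Fro.frolicher n X) r p q _).mp h
    refine (FComplex.mem_B_iff (frolicher n X) r p q _).mpr ⟨x, (Z_iff n X _ _ _ x).mpr hx,
      z, (Z_iff n X _ _ _ z).mpr hz, ?_⟩
    have h3 : (show AllForms n X from x) + totalD n X z = a := by
      rw [totalD_eq n X z]
      exact h2
    exact h3

/-- the two definitions have nonzero differentials at the same places -/
theorem d_ne_zero_iff_old [CMfd n X] (r p q : ℤ) :
    (frolicher n X).d r p q ≠ 0 ↔ (Fro.frolicher n X).d r p q ≠ 0 := by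
  rw [FComplex.d_ne_zero_iff, Fro.FComplex.d_ne_zero_iff]
  constructor
  · rintro ⟨a, ha, hb⟩
    refine ⟨a, (Z_iff n X _ _ _ a).mp ha, fun h => hb ?_⟩
    have h2 : totalD n X a = Fro.totalD n X a := totalD_eq n X a
    change totalD n X a ∈ (frolicher n X).B r (p + r) (q - r + 1)
    rw [h2]
    exact (B_iff n X _ _ _ (Fro.totalD n X a)).mpr h
  · rintro ⟨a, ha, hb⟩
    refine ⟨a, (Z_iff n X _ _ _ a).mpr ha, fun h => hb ?_⟩
    have h2 : totalD n X a = Fro.totalD n X a := totalD_eq n X a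
    have h3 : totalD n X a ∈ (frolicher n X).B r (p + r) (q - r + 1) := h
    have h4 := (B_iff n X _ _ _ (totalD n X a)).mp h3
    rw [h2] at h4
    exact h4

end Pool.Agent.H73.FSS
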