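import Mathlib

/-!
# The spectral sequence of a filtered complex

The pages `E_r^{p,q}` of the spectral sequence of a filtered complex of complex vector spaces,
with their differentials `d_r : E_r^{p,q} → E_r^{p+r,q-r+1}`.
-/

namespace Pool.Agent.H73.FSS

/-- A filtered complex of complex vector spaces: `A` is the sum of the spaces in all degrees,
`D` the differential, and `F p m` the `p`-th step of the filtration in degree `m`. -/
structure FComplex where
  A : Type*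
  [grp : AddCommGroup A]
  [mod : Module ℂ A]
  D : A →ₗ[ℂ] A
  D_D : ∀ a, D (D a) = 0
  F : ℤ → ℤ → Submodule ℂ A

attribute [instance] FComplex.grp FComplex.mod

namespace FComplex

variable (C : FComplex)

/-- `Z_r^{p,q}`: the elements of `F^p` in degree `p + q` whose differential lies in `F^{p+r}`. -/
def Z (r p q : ℤ) : Submodule ℂ C.A := C.F p (p + q) ⊓ (C.F (p + r) (p + q + 1)).comap C.D

/-- `B_r^{p,q} = Z_{r-1}^{p+1,q-1} + D Z_{r-1}^{p-r+1,q+r-2}`. -/
def B (r p q : ℤ) : Submodule ℂ C.A :=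
  C.Z (r - 1) (p + 1) (q - 1) ⊔ (C.Z (r - 1) (p - r + 1) (q + r - 2)).map C.D

/-- `B_r^{p,q} ∩ Z_r^{p,q}`, as a subspace of `Z_r^{p,q}` -/
def BZ (r p q : ℤ) : Submodule ℂ (C.Z r p q) := (C.B r p q).submoduleOf (C.Z r p q)

/-- The entry `E_r^{p,q} = Z_r^{p,q} / (B_r^{p,q} ∩ Z_r^{p,q})` of the `r`-th page of the spectral
sequence of the filtered complex. -/
def E (r p q : ℤ) : Type _ := C.Z r p q ⧸ C.BZ r p q

instance eGroup (r p q : ℤ) : AddCommGroup (C.E r p q) :=
  (inferInstance : AddCommGroup (C.Z r p q ⧸ C.BZ r p q))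

instance eModule (r p q : ℤ) : Module ℂ (C.E r p q) :=
  (inferInstance : Module ℂ (C.Z r p q ⧸ C.BZ r p q))

/-- the differential maps `Z_r^{p,q}` to `Z_r^{p+r,q-r+1}` -/
theorem D_mem_Z (r p q : ℤ) {a : C.A} (ha : a ∈ C.Z r p q) :
    C.D a ∈ C.Z r (p + r) (q - r + 1) := by
  refine ⟨?_, ?_⟩
  · have h : C.D a ∈ C.F (p + r) (p + q + 1) := ha.2
    have e : p + r + (q - r + 1) = p + q + 1 := by ring
    rw [SetLike.mem_coe, e]
    exact h
  · change C.D (C.D a) ∈ C.F _ _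
    rw [C.D_D]
    exact zero_mem _

/-- the differential maps `B_r^{p,q}` to `B_r^{p+r,q-r+1}` -/
theorem D_mem_B (r p q : ℤ) {a : C.A} (ha : a ∈ C.B r p q) :
    C.D a ∈ C.B r (p + r) (q - r + 1) := by
  obtain ⟨x, hx, y, ⟨z, hz, rfl⟩, rfl⟩ := Submodule.mem_sup.mp ha
  rw [map_add, C.D_D, add_zero]
  apply Submodule.mem_sup_right
  refine ⟨x, ?_, rfl⟩
  have e1 : p + r - r + 1 = p + 1 := by ring
  have e2 : q - r + 1 + r - 2 = q - 1 := by ring
  rw [e1, e2]
  exact hx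

/-- the restriction `Z_r^{p,q} → Z_r^{p+r,q-r+1}` of `D` -/
def dZ (r p q : ℤ) : C.Z r p q →ₗ[ℂ] C.Z r (p + r) (q - r + 1) :=
  C.D.restrict (fun _ ha => C.D_mem_Z r p q ha)

theorem dZ_le (r p q : ℤ) :
    C.BZ r p q ≤ (C.BZ r (p + r) (q - r + 1)).comap (C.dZ r p q) :=
  fun _ ha => C.D_mem_B r p q ha

/-- the differential `d_r : E_r^{p,q} → E_r^{p+r,q-r+1}` of the `r`-th page, induced by `D` -/
def d (r p q : ℤ) : C.E r p q →ₗ[ℂ] C.E r (p + r) (q - r + 1) :=
  Submodule.mapQ (C.BZ r p q) (C.BZ r (p + r) (q - r + 1)) (C.dZ r p q) (C.dZ_le r p q)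

/-- the differential `d_r : E_r^{p,q} → E_r^{p+r,q-r+1}` is zero -/
def dVanishes (r p q : ℤ) : Prop := C.d r p q = 0

/-- `d_r` is nonzero if and only if the differential of some element of `Z_r` is not in `B_r` -/
theorem d_ne_zero_iff (r p q : ℤ) :
    C.d r p q ≠ 0 ↔ ∃ a ∈ C.Z r p q, C.D a ∉ C.B r (p + r) (q - r + 1) := by
  constructor
  · intro h
    by_contra hcon
    push Not at hcon
    apply h
    apply LinearMap.ext
    intro x
    obtain ⟨x, rfl⟩ := Submodule.mkQ_surjective _ x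
    exact (Submodule.Quotient.mk_eq_zero _).mpr (hcon x.1 x.2)
  · rintro ⟨a, ha, hb⟩ h
    apply hb
    have h2 : C.d r p q (Submodule.Quotient.mk ⟨a, ha⟩) = 0 :=
      LinearMap.congr_fun h (Submodule.Quotient.mk ⟨a, ha⟩)
    exact (Submodule.Quotient.mk_eq_zero (C.BZ r (p + r) (q - r + 1))).mp h2

end FComplex

end Pool.Agent.H73.FSS
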