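import Mathlib
import Pool.Agent.H73.FSS.Pages

/-!
# The Froelicher spectral sequence of a complex manifold: the definitions

Smooth complex-valued differential forms on a complex manifold `X` of dimension `n`
(charts in `ℂⁿ = Fin n → ℂ`, holomorphic transition maps), the exterior derivative, forms of
type `(p,q)`, the filtration by `p`-degree, and the filtered complex whose pages are the
Froelicher spectral sequence.
-/

namespace Pool.Agent.H73.FSS

open Set
open scoped Manifold ContDiff ComplexConjugate Topology

/-- complex `n`-space -/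
abbrev Cn (n : ℕ) : Type := Fin n → ℂ

/-- `X` is a complex manifold: the transition maps between its charts are holomorphic. -/
abbrev CMfd (n : ℕ) (X : Type*) [TopologicalSpace X] [ChartedSpace (Cn n) X] : Prop :=
  IsManifold 𝓘(ℂ, Cn n) ω X

section Local

/-- the real-multilinear alternating `k`-forms on `ℂⁿ` with values in `ℂ` -/
def Alt (n k : ℕ) : Type := (Cn n) [⋀^Fin k]→L[ℝ] ℂ

noncomputable instance altGroup (n k : ℕ) : NormedAddCommGroup (Alt n k) :=
  (inferInstance : NormedAddCommGroup ((Cn n) [⋀^Fin k]→L[ℝ] ℂ))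

noncomputable instance altReal (n k : ℕ) : NormedSpace ℝ (Alt n k) :=
  (inferInstance : NormedSpace ℝ ((Cn n) [⋀^Fin k]→L[ℝ] ℂ))

noncomputable instance altComplex (n k : ℕ) : Module ℂ (Alt n k) :=
  (inferInstance : Module ℂ ((Cn n) [⋀^Fin k]→L[ℝ] ℂ))

variable {n k : ℕ}

/-- the value of an alternating form at `k` vectors -/
noncomputable def Alt.ev (f : Alt n k) (v : Fin k → Cn n) : ℂ :=
  (show (Cn n) [⋀^Fin k]→L[ℝ] ℂ from f) v

/-- a differential form on `ℂⁿ` is smooth on the set `s` -/
def SmoothOn (f : Cn n → Alt n k) (s : Set (Cn n)) : Prop := ContDiffOn ℝ ∞ f s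

/-- the exterior derivative of a differential `k`-form on `ℂⁿ` -/
noncomputable def dLoc (f : Cn n → Alt n k) : Cn n → Alt n (k + 1) :=
  extDeriv (show Cn n → (Cn n) [⋀^Fin k]→L[ℝ] ℂ from f)

/-- the value at the point `y` of the pull-back of the differential form `f` by the map
`g : ℂⁿ → ℂⁿ`: the form `(v_1, …, v_k) ↦ f (g y) (dg_y v_1, …, dg_y v_k)` -/
noncomputable def pullBack (g : Cn n → Cn n) (f : Cn n → Alt n k) (y : Cn n) : Alt n k :=
  ContinuousAlternatingMap.compContinuousLinearMap (show (Cn n) [⋀^Fin k]→L[ℝ] ℂ from f (g y))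
    (fderiv ℝ g y)

end Local

section Charts

/-- the charts of the atlas of `X` -/
def Chart (n : ℕ) (X : Type*) [TopologicalSpace X] [ChartedSpace (Cn n) X] : Type _ :=
  atlas (Cn n) X

variable {n : ℕ} {X : Type*} [TopologicalSpace X] [ChartedSpace (Cn n) X]

/-- the target of a chart, an open subset of `ℂⁿ` -/
def Chart.dom (e : Chart n X) : Set (Cn n) := e.1.target

/-- the points of `ℂⁿ` whose image in `X` (under the inverse of the chart `e`) lies in the source
of the chart `e'` -/
noncomputable def Chart.meets (e e' : Chart n X) : Set (Cn n) := {y | e.1.symm y ∈ e'.1.source}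

/-- the transition map from the chart `e` to the chart `e'` -/
noncomputable def Chart.trans (e e' : Chart n X) (y : Cn n) : Cn n := e'.1 (e.1.symm y)

/-- transition maps between charts of a complex manifold are smooth (in the real sense) -/
theorem contDiffAt_transition [CMfd n X] (e e' : Chart n X) {y : Cn n}
    (hy : y ∈ e.dom) (hy' : y ∈ e.meets e') : ContDiffAt ℝ ∞ (e.trans e') y := by
  have h := (contDiffGroupoid ω 𝓘(ℂ, Cn n)).compatible e.2 e'.2
  rw [contDiffGroupoid, mem_groupoid_of_pregroupoid] at h
  have h1 := h.1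
  simp only [contDiffPregroupoid, modelWithCornersSelf_coe, modelWithCornersSelf_coe_symm,
    Function.comp_id, Function.id_comp, preimage_id, range_id, inter_univ] at h1
  have hmem : y ∈ (e.1.symm ≫ₕ e'.1).source := by
    rw [OpenPartialHomeomorph.trans_source]
    exact ⟨hy, hy'⟩
  have h2 : ContDiffAt ℂ ω (fun z => e'.1 (e.1.symm z)) y :=
    (h1 y hmem).contDiffAt ((e.1.symm ≫ₕ e'.1).open_source.mem_nhds hmem)
  exact (h2.restrict_scalars ℝ).of_le (by simp)

end Charts

section Forms

variable (n : ℕ) (X : Type*) [TopologicalSpace X] [ChartedSpace (Cn n) X]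

/-- families of local expressions: a `k`-form on `ℂⁿ` for every chart of the atlas -/
def Loc (k : ℕ) : Type _ := Chart n X → Cn n → Alt n k

noncomputable instance locGroup (k : ℕ) : AddCommGroup (Loc n X k) :=
  (inferInstance : AddCommGroup (Chart n X → Cn n → Alt n k))

noncomputable instance locModule (k : ℕ) : Module ℂ (Loc n X k) :=
  (inferInstance : Module ℂ (Chart n X → Cn n → Alt n k))

variable {n X}

/-- The family `a` of local expressions is a smooth differential form on `X`: to every chart `e`
of the atlas it assigns a smooth `k`-form on the target of `e` (an open subset of `ℂⁿ`), extended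
by `0` outside the target, and the local expressions in two charts are related by pull-back under
the transition map. -/
def IsForm {k : ℕ} (a : Loc n X k) : Prop :=
  (∀ e, SmoothOn (a e) e.dom) ∧ (∀ e, ∀ y ∉ e.dom, a e y = 0) ∧
    ∀ e e' : Chart n X, ∀ y ∈ e.dom, y ∈ e.meets e' → a e y = pullBack (e.trans e') (a e') y

theorem IsForm.smooth {k : ℕ} {a : Loc n X k} (ha : IsForm a) (e : Chart n X) :
    SmoothOn (a e) e.dom := ha.1 e

theorem IsForm.off {k : ℕ} {a : Loc n X k} (ha : IsForm a) (e : Chart n X) :
    ∀ y ∉ e.dom, a e y = 0 := ha.2.1 e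

theorem IsForm.compat {k : ℕ} {a : Loc n X k} (ha : IsForm a) (e e' : Chart n X) :
    ∀ y ∈ e.dom, y ∈ e.meets e' → a e y = pullBack (e.trans e') (a e') y :=
  ha.2.2 e e'

theorem IsForm.zero {k : ℕ} : IsForm (0 : Loc n X k) := by
  refine ⟨fun e => contDiffOn_const, fun e y hy => rfl, fun e e' y hy hy' => ?_⟩
  apply ContinuousAlternatingMap.ext
  intro v
  rfl

theorem IsForm.add {k : ℕ} {a b : Loc n X k} (ha : IsForm a) (hb : IsForm b) :
    IsForm (a + b) := by
  refine ⟨fun e => ContDiffOn.add (ha.smooth e) (hb.smooth e), fun e y hy => ?_,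
    fun e e' y hy hy' => ?_⟩
  · change a e y + b e y = 0
    rw [ha.off e y hy, hb.off e y hy, add_zero]
  · change a e y + b e y = _
    rw [ha.compat e e' y hy hy', hb.compat e e' y hy hy']
    rfl

theorem IsForm.smul {k : ℕ} (c : ℂ) {a : Loc n X k} (ha : IsForm a) :
    IsForm (c • a) := by
  refine ⟨fun e => ?_, fun e y hy => ?_, fun e e' y hy hy' => ?_⟩
  · have h : ContDiffOn ℝ ∞ (a e) e.dom := ha.smooth e
    exact ContDiffOn.const_smul (F := (Cn n) [⋀^Fin k]→L[ℝ] ℂ) c h
  · change c • a e y = 0
    rw [ha.off e y hy, smul_zero]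
  · change c • a e y = _
    rw [ha.compat e e' y hy hy']
    rfl

variable (n X)

/-- the smooth complex-valued differential `k`-forms on `X`, as a complex vector space -/
noncomputable def formSpace (k : ℕ) : Submodule ℂ (Loc n X k) where
  carrier := {a | IsForm a}
  add_mem' := fun ha hb => IsForm.add ha hb
  zero_mem' := IsForm.zero
  smul_mem' := fun c _ ha => IsForm.smul c ha

/-- the type of smooth complex-valued differential `k`-forms on `X` -/
def Form (k : ℕ) : Type _ := formSpace n X k

noncomputable instance formGroup (k : ℕ) : AddCommGroup (Form n X k) :=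
  (inferInstance : AddCommGroup (formSpace n X k))

noncomputable instance formModule (k : ℕ) : Module ℂ (Form n X k) :=
  (inferInstance : Module ℂ (formSpace n X k))

variable {n X}

/-- the family of local expressions of a form -/
def Form.loc {k : ℕ} (a : Form n X k) : Loc n X k := a.1

theorem Form.isForm {k : ℕ} (a : Form n X k) : IsForm a.loc := a.2

/-- the form with a given family of local expressions -/
def Form.mk {k : ℕ} (a : Loc n X k) (ha : IsForm a) : Form n X k := ⟨a, ha⟩

theorem Form.eq_of {k : ℕ} {a b : Form n X k} (h : a.loc = b.loc) : a = b :=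
  Subtype.ext h

theorem two_le_infty : minSmoothness ℝ 2 ≤ (∞ : ℕ∞ω) := by
  simp only [minSmoothness_of_isRCLikeNormedField]
  exact WithTop.coe_le_coe.mpr (le_top : (2 : ℕ∞) ≤ ⊤)

theorem Chart.isOpen_dom (e : Chart n X) : IsOpen e.dom := e.1.open_target

/-- the local expressions of the exterior derivative, computed in every chart -/
noncomputable def extLoc {k : ℕ} (a : Loc n X k) : Loc n X (k + 1) :=
  fun e => e.dom.indicator (dLoc (a e))

theorem IsForm.extLoc [CMfd n X] {k : ℕ} {a : Loc n X k} (ha : IsForm a) :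
    IsForm (extLoc a) := by
  refine ⟨fun e => ?_, fun e y hy => indicator_of_notMem hy _, fun e e' y hy hy' => ?_⟩
  · have h0 : ContDiffOn ℝ ∞ (show Cn n → (Cn n) [⋀^Fin k]→L[ℝ] ℂ from a e) e.dom :=
      ha.smooth e
    have h1 := h0.fderiv_of_isOpen (m := ∞) e.isOpen_dom (by simp)
    have h2 : ContDiffOn ℝ ∞ (extDeriv (show Cn n → (Cn n) [⋀^Fin k]→L[ℝ] ℂ from a e))
        e.dom := by
      have h3 := (ContinuousAlternatingMap.alternatizeUncurryFinCLM (n := k) ℝ (Cn n)
        ℂ).contDiff.comp_contDiffOn (n := ∞) h1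
      exact h3
    have h4 : ContDiffOn ℝ ∞ (e.dom.indicator
        (extDeriv (show Cn n → (Cn n) [⋀^Fin k]→L[ℝ] ℂ from a e))) e.dom :=
      h2.congr fun y hy => indicator_of_mem hy _
    exact h4
  · have hy2 : e'.1 (e.1.symm y) ∈ e'.dom := e'.1.map_source hy'
    change e.dom.indicator (extDeriv (show Cn n → (Cn n) [⋀^Fin k]→L[ℝ] ℂ from a e)) y =
      (e'.dom.indicator (extDeriv (show Cn n → (Cn n) [⋀^Fin k]→L[ℝ] ℂ from a e'))
        (e'.1 (e.1.symm y))).compContinuousLinearMap (fderiv ℝ (e.trans e') y)
    rw [indicator_of_mem hy, indicator_of_mem hy2]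
    have hmem : y ∈ (e.1.symm ≫ₕ e'.1).source := by
      rw [OpenPartialHomeomorph.trans_source]
      exact ⟨hy, hy'⟩
    have hev : (show Cn n → (Cn n) [⋀^Fin k]→L[ℝ] ℂ from a e) =ᶠ[𝓝 y]
        fun z => (show (Cn n) [⋀^Fin k]→L[ℝ] ℂ from
          a e' (e.trans e' z)).compContinuousLinearMap
          (fderiv ℝ (e.trans e') z) := by
      filter_upwards [(e.1.symm ≫ₕ e'.1).open_source.mem_nhds hmem] with z hz
      rw [OpenPartialHomeomorph.trans_source] at hz
      exact ha.compat e e' z hz.1 hz.2
    rw [hev.extDeriv_eq]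
    have hf : ContDiffAt ℝ ∞ (e.trans e') y := contDiffAt_transition e e' hy hy'
    refine extDeriv_pullback (r := ∞) ?_ hf two_le_infty
    have h0 : ContDiffOn ℝ ∞ (show Cn n → (Cn n) [⋀^Fin k]→L[ℝ] ℂ from a e') e'.dom :=
      ha.smooth e'
    exact (h0.contDiffAt (e'.isOpen_dom.mem_nhds hy2)).differentiableAt (by simp)

theorem IsForm.diffAt {k : ℕ} {a : Loc n X k} (ha : IsForm a) (e : Chart n X) {y : Cn n}
    (hy : y ∈ e.dom) :
    DifferentiableAt ℝ (show Cn n → (Cn n) [⋀^Fin k]→L[ℝ] ℂ from a e) y := by
  have h : ContDiffOn ℝ ∞ (show Cn n → (Cn n) [⋀^Fin k]→L[ℝ] ℂ from a e) e.dom := ha.smooth e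
  exact (h.contDiffAt (e.isOpen_dom.mem_nhds hy)).differentiableAt (by simp)

theorem extLoc_add {k : ℕ} {a b : Loc n X k} (ha : IsForm a) (hb : IsForm b) :
    extLoc (a + b) = extLoc a + extLoc b := by
  funext e y
  change e.dom.indicator (extDeriv (F := ℂ) (n := k) (a e + b e)) y =
    e.dom.indicator (extDeriv (F := ℂ) (n := k) (a e)) y +
      e.dom.indicator (extDeriv (F := ℂ) (n := k) (b e)) y
  by_cases hy : y ∈ e.dom
  · rw [indicator_of_mem hy, indicator_of_mem hy, indicator_of_mem hy]
    exact extDeriv_add (ha.diffAt e hy) (hb.diffAt e hy)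
  · rw [indicator_of_notMem hy, indicator_of_notMem hy, indicator_of_notMem hy, add_zero]

theorem extLoc_smul {k : ℕ} (c : ℂ) {a : Loc n X k} (ha : IsForm a) :
    extLoc (c • a) = c • extLoc a := by
  funext e y
  change e.dom.indicator (extDeriv (F := ℂ) (n := k) (fun y => c • a e y)) y =
    c • e.dom.indicator (extDeriv (F := ℂ) (n := k) (a e)) y
  by_cases hy : y ∈ e.dom
  · rw [indicator_of_mem hy, indicator_of_mem hy]
    have h2 := fderiv_const_smul (R := ℂ) (ha.diffAt e hy) c
    rw [extDeriv, extDeriv]
    exact (congrArg ContinuousAlternatingMap.alternatizeUncurryFin h2).trans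
      (ContinuousAlternatingMap.alternatizeUncurryFin_smul _ _)
  · rw [indicator_of_notMem hy, indicator_of_notMem hy, smul_zero]

theorem extLoc_extLoc {k : ℕ} {a : Loc n X k} (ha : IsForm a) : extLoc (extLoc a) = 0 := by
  funext e y
  change e.dom.indicator (extDeriv (F := ℂ) (n := k + 1)
    (e.dom.indicator (extDeriv (F := ℂ) (n := k) (a e)))) y = 0
  by_cases hy : y ∈ e.dom
  · rw [indicator_of_mem hy]
    have hev : e.dom.indicator (extDeriv (F := ℂ) (n := k) (a e)) =ᶠ[𝓝 y]
        extDeriv (F := ℂ) (n := k) (a e) := by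
      filter_upwards [e.isOpen_dom.mem_nhds hy] with z hz
      exact indicator_of_mem hz _
    rw [hev.extDeriv_eq]
    have h : ContDiffOn ℝ ∞ (show Cn n → (Cn n) [⋀^Fin k]→L[ℝ] ℂ from a e) e.dom := ha.smooth e
    exact extDeriv_extDeriv_apply (r := ∞) (h.contDiffAt (e.isOpen_dom.mem_nhds hy)) two_le_infty
  · exact indicator_of_notMem hy _

variable (n X)

/-- the exterior derivative of smooth forms -/
noncomputable def extD [CMfd n X] (k : ℕ) : Form n X k →ₗ[ℂ] Form n X (k + 1) where
  toFun a := Form.mk (extLoc a.loc) a.isForm.extLoc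
  map_add' a b := Form.eq_of (extLoc_add a.isForm b.isForm)
  map_smul' c a := Form.eq_of (extLoc_smul c a.isForm)

theorem extD_extD [CMfd n X] {k : ℕ} (a : Form n X k) :
    extD n X (k + 1) (extD n X k a) = 0 :=
  Form.eq_of (extLoc_extLoc a.isForm)

end Forms

/-- A real-multilinear alternating `k`-form on `ℂⁿ` is of type `(p,q)` if it is multiplied by
`c ^ p * conj c ^ q` when all its arguments are multiplied by the complex number `c`. -/
def IsType (p q : ℕ) {n k : ℕ} (f : Alt n k) : Prop :=
  ∀ (c : ℂ) (v : Fin k → Cn n), f.ev (fun i => c • v i) = c ^ p * (conj c) ^ q * f.ev v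

section Filtration

variable (n : ℕ) (X : Type*) [TopologicalSpace X] [ChartedSpace (Cn n) X]

/-- The space `A^{p,q}(X)` of smooth forms of type `(p,q)`, as a subspace of the `k`-forms
(to be used for `k = p + q`). -/
noncomputable def Apq (p q k : ℕ) : Submodule ℂ (Form n X k) where
  carrier := {a | ∀ e y, IsType p q (a.loc e y)}
  add_mem' := by
    intro a b ha hb e y c v
    have h1 := ha e y c v
    have h2 := hb e y c v
    change (a.loc e y).ev _ + (b.loc e y).ev _ = _ * ((a.loc e y).ev _ + (b.loc e y).ev _)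
    rw [h1, h2, mul_add]
  zero_mem' := by
    intro e y c v
    exact (mul_zero _).symm
  smul_mem' := by
    intro z a ha e y c v
    have h1 := ha e y c v
    change z • (a.loc e y).ev _ = _ * (z • (a.loc e y).ev _)
    rw [h1, smul_eq_mul, smul_eq_mul]
    ring

/-- `F^p A^k(X)`: the sum of the spaces `A^{i,j}(X)` with `i + j = k` and `i ≥ p`. -/
noncomputable def Fil (p : ℤ) (k : ℕ) : Submodule ℂ (Form n X k) :=
  ⨆ (i : ℕ) (j : ℕ) (_ : i + j = k) (_ : p ≤ i), Apq n X i j k

/-- Differential forms of all degrees: a form in each degree. -/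
def AllForms : Type _ := (k : ℕ) → Form n X k

noncomputable instance allGroup : AddCommGroup (AllForms n X) :=
  (inferInstance : AddCommGroup ((k : ℕ) → Form n X k))

noncomputable instance allModule : Module ℂ (AllForms n X) :=
  (inferInstance : Module ℂ ((k : ℕ) → Form n X k))

/-- `F^p A^m(X)`, inside the forms of all degrees. -/
noncomputable def filtration (p m : ℤ) : Submodule ℂ (AllForms n X) where
  carrier := {a | ∀ k : ℕ, ((k : ℤ) = m → a k ∈ Fil n X p k) ∧ ((k : ℤ) ≠ m → a k = 0)}
  add_mem' := by
    intro a b ha hb k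
    refine ⟨fun h => add_mem ((ha k).1 h) ((hb k).1 h), fun h => ?_⟩
    change a k + b k = 0
    rw [(ha k).2 h, (hb k).2 h, add_zero]
  zero_mem' := fun k => ⟨fun _ => zero_mem _, fun _ => rfl⟩
  smul_mem' := by
    intro c a ha k
    refine ⟨fun h => Submodule.smul_mem _ c ((ha k).1 h), fun h => ?_⟩
    change c • a k = 0
    rw [(ha k).2 h, smul_zero]

variable {n X} in
/-- The exterior derivative of a form of all degrees: in degree `0` it is `0`, in degree `k + 1`
it is the exterior derivative of the part of degree `k`. -/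
noncomputable def dAll [CMfd n X] (a : AllForms n X) : AllForms n X
  | 0 => 0
  | k + 1 => extD n X k (a k)

/-- The exterior derivative on forms of all degrees. -/
noncomputable def totalD [CMfd n X] : AllForms n X →ₗ[ℂ] AllForms n X where
  toFun := dAll
  map_add' a b := by
    funext k
    cases k with
    | zero => exact (add_zero (0 : Form n X 0)).symm
    | succ k => exact map_add (extD n X k) (a k) (b k)
  map_smul' c a := by
    funext k
    cases k with
    | zero => exact (smul_zero c (A := Form n X 0)).symm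
    | succ k => exact map_smul (extD n X k) c (a k)

theorem totalD_totalD [CMfd n X] (a : AllForms n X) :
    totalD n X (totalD n X a) = 0 := by
  funext k
  match k with
  | 0 => rfl
  | 1 => exact map_zero (extD n X 0)
  | k + 2 => exact extD_extD n X (a k)

/-- The filtered complex of smooth forms on the complex manifold `X`, whose spectral sequence is
the Froelicher spectral sequence of `X`. -/
noncomputable def frolicher [CMfd n X] : FComplex where
  A := AllForms n X
  D := totalD n X
  D_D := totalD_totalD n X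
  F := filtration n X

end Filtration

end Pool.Agent.H73.FSS
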